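import Pool.Agent.W2helper25.FBC.Main

/-!
# The groups `F_{n+1} ⋊ ℤ` with `a_0 ↦ a_0`, `a_i ↦ a_0^{p_i} a_i a_0^{q_i}` are linear

Let `a_0, a_1, …, a_n` be the basis of the free group, and let the generator of `ℤ` act by
`a_0 ↦ a_0` and `a_i ↦ a_0^{p_i} a_i a_0^{q_i}` with arbitrary integers `p_i, q_i`.  For every finite
set `C` of integers with at least two elements that contains all `-p_i` and all `q_i`, and every
field `K` of characteristic zero containing an element transcendental over `ℚ`, the group embeds in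
`GL_{2|C|}(K)`.

Gersten's group (which is not a CAT(0) group) is the case `n = 2`, `p = 0`, `q = (1, 2)`, and the
choice `C = {0, 1, 2}` gives a faithful representation of dimension 6.
-/

set_option autoImplicit false

namespace Pool.Agent.Results.MP_1f284c_al.TubularLinear

open Pool.Agent.W2helper25.FBC

theorem result (n : ℕ) (p q : Fin n → ℤ)
    (φ : Multiplicative ℤ →* MulAut (FreeGroup (Fin (n + 1))))
    (h0 : φ (Multiplicative.ofAdd 1) (FreeGroup.of 0) = FreeGroup.of 0)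
    (h : ∀ i : Fin n, φ (Multiplicative.ofAdd 1) (FreeGroup.of i.succ)
      = FreeGroup.of 0 ^ p i * FreeGroup.of i.succ * FreeGroup.of 0 ^ q i)
    (C : Finset ℤ) (hC : 2 ≤ C.card) (hp : ∀ i, -p i ∈ C) (hq : ∀ i, q i ∈ C)
    (K : Type) [Field K] [Algebra ℚ K] (x : K) (hx : Transcendental ℚ x) :
    ∃ f : SemidirectProduct (FreeGroup (Fin (n + 1))) (Multiplicative ℤ) φ →*
      Matrix.GeneralLinearGroup (Fin (2 * C.card)) K, Function.Injective f := by
  classical
  obtain ⟨c1, hc1, c2, hc2, hne⟩ := Finset.one_lt_card.1 (by omega : 1 < C.card)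
  -- the parameters
  have hbe : ∀ (u w : Fin n × Bool), u ≠ w → ∀ k : ℤ,
      (((2 * (u.1 : ℤ) + cond u.2 1 0 : ℤ) : ℚ) / (2 * n))
        - (((2 * (w.1 : ℤ) + cond w.2 1 0 : ℤ) : ℚ) / (2 * n)) + k ≠ 0 := by
    rintro ⟨i, b⟩ ⟨j, b'⟩ hne k h0
    have hn : 0 < n := lt_of_le_of_lt (Nat.zero_le _) i.2
    have hnq : (2 * (n : ℚ)) ≠ 0 := by positivity
    have h1 : ((2 * (i : ℤ) + cond b 1 0 : ℤ) : ℚ) - ((2 * (j : ℤ) + cond b' 1 0 : ℤ) : ℚ)
        + k * (2 * n) = 0 := by
      field_simp at h0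
      linarith
    have h2 : (2 * (i : ℤ) + cond b 1 0) - (2 * (j : ℤ) + cond b' 1 0) + k * (2 * (n : ℤ)) = 0 := by
      exact_mod_cast h1
    have hi : (i : ℤ) < n := by exact_mod_cast i.2
    have hj : (j : ℤ) < n := by exact_mod_cast j.2
    have hi0 : (0 : ℤ) ≤ i := by positivity
    have hj0 : (0 : ℤ) ≤ j := by positivity
    have hb : (0 : ℤ) ≤ cond b 1 0 ∧ (cond b 1 0 : ℤ) ≤ 1 := by cases b <;> simp
    have hb' : (0 : ℤ) ≤ cond b' 1 0 ∧ (cond b' 1 0 : ℤ) ≤ 1 := by cases b' <;> simp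
    have hk : k = 0 := by
      by_contra hk
      rcases lt_or_gt_of_ne hk with hk | hk
      · nlinarith
      · nlinarith
    subst hk
    apply hne
    have h3 : (i : ℤ) = j ∧ (cond b 1 0 : ℤ) = cond b' 1 0 := by
      constructor <;> omega
    refine Prod.ext (Fin.ext (by exact_mod_cast h3.1)) ?_
    cases b <;> cases b' <;> simp_all
  let D : Dat C n :=
    { v := fun c => (c : ℤ)
      vinj := Subtype.val_injective
      pp := fun i => ⟨-p i, hp i⟩
      qq := fun i => ⟨q i, hq i⟩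
      be := fun u => (((2 * (u.1 : ℤ) + cond u.2 1 0 : ℤ) : ℚ) / (2 * n))
      hbe := hbe
      c1 := ⟨c1, hc1⟩
      c2 := ⟨c2, hc2⟩
      hc := fun h => hne (congrArg Subtype.val h) }
  obtain ⟨f, hf⟩ := D.main (K := K) x⁻¹ (by rwa [inv_inv]) p q (fun i => rfl) (fun i => rfl) φ h0 h
  have hcard : Fintype.card (C ⊕ C) = 2 * C.card := by
    rw [Fintype.card_sum, Fintype.card_coe, two_mul]
  let e : (C ⊕ C) ≃ Fin (2 * C.card) := Fintype.equivFinOfCardEq hcard
  let r : Matrix.GeneralLinearGroup (C ⊕ C) K ≃* Matrix.GeneralLinearGroup (Fin (2 * C.card)) K :=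
    Units.mapEquiv (Matrix.reindexAlgEquiv K K e).toMulEquiv
  exact ⟨r.toMonoidHom.comp f, r.injective.comp hf⟩

end Pool.Agent.Results.MP_1f284c_al.TubularLinear
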